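import Pool.Agent.Helper81.SC.StT
import Pool.Agent.Helper45.HD.Frames

/-!
Stability in the square mean under the noise.
-/

set_option autoImplicit false

open Finset

namespace Pool.Agent.Helper81.SC

open Pool.Agent.Helper7.SC (St wt jump P z)

section

variable {x : ℕ} [NeZero x]

/-- the energy of the differences -/
noncomputable def dif (x b q : ℕ) [NeZero x] (p : ℝ) (m r : ℕ) (G : ZMod x → ℂ) : ℝ :=
  ∑ ω : Fin m → St (b ^ q), P p ω * ∑ n : ZMod x, ‖G n - G (n + ((z b q r ω : ℤ) : ZMod x))‖ ^ 2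

/-- the square of the norm of the difference with a shift -/
noncomputable def nd (G : ZMod x → ℂ) (d : ZMod x) : ℝ := ∑ n : ZMod x, ‖G n - G (n + d)‖ ^ 2

theorem nd_nonneg (G : ZMod x → ℂ) (d : ZMod x) : 0 ≤ nd G d :=
  sum_nonneg fun _ _ => by positivity

/-- the root of `nd` is subadditive -/
theorem sqrt_nd_add (G : ZMod x → ℂ) (d e : ZMod x) :
    √(nd G (d + e)) ≤ √(nd G d) + √(nd G e) := by
  have h1 : nd G (d + e) = ∑ n : ZMod x, ‖(G n - G (n + d)) + (G (n + d) - G (n + d + e))‖ ^ 2 := by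
    unfold nd
    refine sum_congr rfl fun n _ => ?_
    rw [← add_assoc]
    congr 2
    ring
  have h2 : nd G e = ∑ n : ZMod x, ‖G (n + d) - G (n + d + e)‖ ^ 2 := by
    unfold nd
    exact (Fintype.sum_equiv (Equiv.addRight d) _ _ fun n => rfl).symm
  have h3 : ∀ F : ZMod x → ℂ, √(∑ n, ‖F n‖ ^ 2) = ‖(WithLp.toLp 2 F : EuclideanSpace ℂ (ZMod x))‖ := by
    intro F
    rw [EuclideanSpace.norm_eq]
  rw [h1, h2]
  unfold nd
  rw [h3 fun n => (G n - G (n + d)) + (G (n + d) - G (n + d + e)), h3 fun n => G n - G (n + d),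
    h3 fun n => G (n + d) - G (n + d + e)]
  have h4 : (WithLp.toLp 2 fun n => (G n - G (n + d)) + (G (n + d) - G (n + d + e)) :
      EuclideanSpace ℂ (ZMod x)) = (WithLp.toLp 2 fun n => G n - G (n + d)) +
        (WithLp.toLp 2 fun n => G (n + d) - G (n + d + e)) := rfl
  rw [h4]
  exact norm_add_le _ _

theorem nd_zero (G : ZMod x → ℂ) : nd G 0 = 0 := by simp [nd]

theorem nd_neg (G : ZMod x → ℂ) (d : ZMod x) : nd G (-d) = nd G d := by
  unfold nd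
  refine Fintype.sum_equiv (Equiv.addRight (-d)) _ _ fun n => ?_
  simp only [Equiv.coe_addRight]
  rw [neg_add_cancel_right, ← norm_neg]
  congr 2
  ring

theorem sqrt_nd_mul (G : ZMod x → ℂ) (d : ZMod x) (t : ℕ) :
    √(nd G ((t : ZMod x) * d)) ≤ t * √(nd G d) := by
  induction t with
  | zero => simp [nd_zero]
  | succ t ih =>
    have e1 : ((t + 1 : ℕ) : ZMod x) * d = (t : ZMod x) * d + d := by push_cast; ring
    rw [e1]
    refine (sqrt_nd_add G _ _).trans ?_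
    push_cast
    linarith

/-- shifts by multiples -/
theorem nd_int_mul (G : ZMod x → ℂ) (d : ZMod x) (t : ℤ) :
    nd G ((t : ZMod x) * d) ≤ (t : ℝ) ^ 2 * nd G d := by
  have h1 : ∀ t : ℕ, nd G ((t : ZMod x) * d) ≤ (t : ℝ) ^ 2 * nd G d := by
    intro t
    have h2 := sqrt_nd_mul G d t
    have h3 := pow_le_pow_left₀ (Real.sqrt_nonneg _) h2 2
    rw [mul_pow, Real.sq_sqrt (nd_nonneg _ _), Real.sq_sqrt (nd_nonneg _ _)] at h3
    exact h3
  rcases le_total 0 t with h | h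
  · obtain ⟨s, rfl⟩ := Int.eq_ofNat_of_zero_le h
    have := h1 s
    push_cast
    exact this
  · obtain ⟨s, hs⟩ := Int.eq_ofNat_of_zero_le (neg_nonneg.2 h)
    have h2 : t = -(s : ℤ) := by omega
    rw [h2]
    have h3 : (((-(s : ℤ) : ℤ)) : ZMod x) * d = -((s : ZMod x) * d) := by push_cast; ring
    rw [h3, nd_neg]
    have := h1 s
    push_cast
    rw [neg_sq]
    exact this

theorem norm_sub_sq' (a b : ℂ) :
    ‖a - b‖ ^ 2 = ‖a‖ ^ 2 + ‖b‖ ^ 2 - 2 * (a * (starRingEnd ℂ) b).re := by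
  rw [← Complex.normSq_eq_norm_sq, ← Complex.normSq_eq_norm_sq, ← Complex.normSq_eq_norm_sq,
    Complex.normSq_sub]

theorem sum_P {Q : ℕ} (hQ : 0 < Q) (m : ℕ) (p : ℝ) : ∑ ω : Fin m → St Q, P p ω = 1 := by
  have h2 := Finset.prod_univ_sum (fun _ : Fin m => (univ : Finset (St Q))) (fun _ s => wt Q p s)
  rw [Fintype.piFinset_univ] at h2
  unfold P
  rw [← h2]
  exact prod_eq_one fun i _ => sum_wt hQ p

/-- the energy of the differences and the form of the noise -/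
theorem dif_eq {b q : ℕ} (hQ : 0 < b ^ q) (p : ℝ) (m r : ℕ) (G : ZMod x → ℂ) :
    dif x b q p m r G = 2 * ∑ n, ‖G n‖ ^ 2 -
      2 * (form x b q p m r G fun n => (starRingEnd ℂ) (G n)).re := by
  have h1 : ∀ ω : Fin m → St (b ^ q), ∑ n : ZMod x, ‖G n - G (n + ((z b q r ω : ℤ) : ZMod x))‖ ^ 2 =
      2 * ∑ n, ‖G n‖ ^ 2 - 2 * ∑ n : ZMod x,
        (G n * (starRingEnd ℂ) (G (n + ((z b q r ω : ℤ) : ZMod x)))).re := by
    intro ω
    simp only [norm_sub_sq', sum_sub_distrib, sum_add_distrib, ← mul_sum]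
    have h2 : ∑ n : ZMod x, ‖G (n + ((z b q r ω : ℤ) : ZMod x))‖ ^ 2 = ∑ n, ‖G n‖ ^ 2 :=
      Fintype.sum_equiv (Equiv.addRight ((z b q r ω : ℤ) : ZMod x)) _ _ fun n => rfl
    rw [h2]
    ring
  unfold dif
  rw [sum_congr rfl fun ω _ => by rw [h1 ω]]
  simp only [mul_sub, sum_sub_distrib]
  rw [← sum_mul, sum_P hQ, one_mul]
  congr 1
  unfold form
  rw [Complex.re_sum, mul_sum]
  simp only [Complex.re_sum, Complex.re_ofReal_mul, mul_sum]
  rw [sum_comm]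
  refine sum_congr rfl fun n _ => sum_congr rfl fun ω _ => ?_
  ring

/-- the mean is a contraction -/
theorem norm_av_sq (b q r : ℕ) (hQ : 0 < b ^ q) (F : ZMod x → ℂ) :
    ∑ n, ‖av x b q r F n‖ ^ 2 ≤ ∑ n, ‖F n‖ ^ 2 := by
  have hQ' : (0 : ℝ) < ((b ^ q : ℕ) : ℝ) := by exact_mod_cast hQ
  have h1 : ∀ n, ‖av x b q r F n‖ ^ 2 ≤ 1 / ((b ^ q : ℕ) : ℝ) *
      ∑ τ : Fin (b ^ q), ‖F (n + ((τ : ℕ) : ZMod x) * (b : ZMod x) ^ r)‖ ^ 2 := by
    intro n
    unfold av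
    rw [norm_mul, norm_div, norm_one, Complex.norm_natCast, mul_pow]
    have h2 : ‖∑ τ : Fin (b ^ q), F (n + ((τ : ℕ) : ZMod x) * (b : ZMod x) ^ r)‖ ^ 2 ≤
        ((b ^ q : ℕ) : ℝ) * ∑ τ : Fin (b ^ q), ‖F (n + ((τ : ℕ) : ZMod x) * (b : ZMod x) ^ r)‖ ^ 2 := by
      refine (pow_le_pow_left₀ (norm_nonneg _) (norm_sum_le _ _) 2).trans ?_
      have h3 := sq_sum_le_card_mul_sum_sq (s := (univ : Finset (Fin (b ^ q))))
        (f := fun τ => ‖F (n + ((τ : ℕ) : ZMod x) * (b : ZMod x) ^ r)‖)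
      rw [card_univ, Fintype.card_fin] at h3
      exact h3
    refine (mul_le_mul_of_nonneg_left h2 (by positivity)).trans_eq ?_
    field_simp
  refine (sum_le_sum fun n _ => h1 n).trans_eq ?_
  rw [← mul_sum, sum_comm]
  have h4 : ∀ τ : Fin (b ^ q), ∑ n : ZMod x, ‖F (n + ((τ : ℕ) : ZMod x) * (b : ZMod x) ^ r)‖ ^ 2 =
      ∑ n, ‖F n‖ ^ 2 := fun τ =>
    Fintype.sum_equiv (Equiv.addRight (((τ : ℕ) : ZMod x) * (b : ZMod x) ^ r)) _ _ fun n => rfl
  rw [sum_congr rfl fun τ _ => h4 τ, sum_const, card_univ, Fintype.card_fin, nsmul_eq_mul]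
  field_simp

theorem dif_av {b q : ℕ} (hQ : 0 < b ^ q) {p : ℝ} (hp0 : 0 ≤ p) (hp1 : p ≤ 1) (m r e : ℕ)
    (G : ZMod x → ℂ) : dif x b q p m r (av x b q e G) ≤ dif x b q p m r G := by
  unfold dif
  refine sum_le_sum fun ω _ => mul_le_mul_of_nonneg_left ?_
    (prod_nonneg fun B _ => wt_nonneg hp0 hp1 _)
  have h1 : ∀ n, av x b q e G n - av x b q e G (n + ((z b q r ω : ℤ) : ZMod x)) =
      av x b q e (fun n => G n - G (n + ((z b q r ω : ℤ) : ZMod x))) n := by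
    intro n
    unfold av
    rw [← mul_sub, ← sum_sub_distrib]
    congr 1
    refine sum_congr rfl fun τ _ => ?_
    congr 2
    ring
  simp only [h1]
  exact norm_av_sq b q e hQ _

/-- the loss of the mean -/
theorem av_loss (b q r : ℕ) (hQ : 0 < b ^ q) (G : ZMod x → ℂ) :
    2 * (∑ n, ‖G n‖ ^ 2 - ∑ n, ‖av x b q r G n‖ ^ 2) ≤
      ((b ^ q : ℕ) : ℝ) ^ 2 * nd G ((b : ZMod x) ^ r) := by
  have hQ' : (0 : ℝ) < ((b ^ q : ℕ) : ℝ) := by exact_mod_cast hQ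
  have h1 : ∀ n, ‖av x b q r G n‖ ^ 2 = 1 / ((b ^ q : ℕ) : ℝ) ^ 2 *
      ∑ τ : Fin (b ^ q), ∑ τ' : Fin (b ^ q), (G (n + ((τ : ℕ) : ZMod x) * (b : ZMod x) ^ r) *
        (starRingEnd ℂ) (G (n + ((τ' : ℕ) : ZMod x) * (b : ZMod x) ^ r))).re := by
    intro n
    have h2 : ((‖av x b q r G n‖ ^ 2 : ℝ) : ℂ) = av x b q r G n * (starRingEnd ℂ) (av x b q r G n) := by
      rw [Complex.mul_conj, Complex.normSq_eq_norm_sq]
    have h3 : ‖av x b q r G n‖ ^ 2 = (av x b q r G n * (starRingEnd ℂ) (av x b q r G n)).re := by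
      rw [← h2, Complex.ofReal_re]
    rw [h3]
    unfold av
    rw [map_mul, map_sum, mul_mul_mul_comm, sum_mul_sum]
    have h4 : (1 / ((b ^ q : ℕ) : ℂ)) * (starRingEnd ℂ) (1 / ((b ^ q : ℕ) : ℂ)) =
        ((1 / ((b ^ q : ℕ) : ℝ) ^ 2 : ℝ) : ℂ) := by
      rw [map_div₀, map_one, map_natCast]
      push_cast
      ring
    rw [h4, Complex.re_ofReal_mul, Complex.re_sum]
    simp only [Complex.re_sum]
  have h5 : ∀ τ τ' : Fin (b ^ q), ∑ n : ZMod x, (G (n + ((τ : ℕ) : ZMod x) * (b : ZMod x) ^ r) *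
        (starRingEnd ℂ) (G (n + ((τ' : ℕ) : ZMod x) * (b : ZMod x) ^ r))).re =
      ∑ n, ‖G n‖ ^ 2 - 1 / 2 * nd G ((((τ' : ℕ) : ℤ) - ((τ : ℕ) : ℤ) : ℤ) * (b : ZMod x) ^ r) := by
    intro τ τ'
    have h6 : nd G ((((τ' : ℕ) : ℤ) - ((τ : ℕ) : ℤ) : ℤ) * (b : ZMod x) ^ r) =
        ∑ n : ZMod x, ‖G (n + ((τ : ℕ) : ZMod x) * (b : ZMod x) ^ r) -
          G (n + ((τ' : ℕ) : ZMod x) * (b : ZMod x) ^ r)‖ ^ 2 := by
      unfold nd
      refine (Fintype.sum_equiv (Equiv.addRight (((τ : ℕ) : ZMod x) * (b : ZMod x) ^ r)) _ _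
        fun n => ?_).symm
      simp only [Equiv.coe_addRight]
      congr 3
      push_cast
      ring_nf
    have h7 : ∀ τ : Fin (b ^ q), ∑ n : ZMod x, ‖G (n + ((τ : ℕ) : ZMod x) * (b : ZMod x) ^ r)‖ ^ 2 =
        ∑ n, ‖G n‖ ^ 2 := fun τ =>
      Fintype.sum_equiv (Equiv.addRight (((τ : ℕ) : ZMod x) * (b : ZMod x) ^ r)) _ _ fun n => rfl
    rw [h6]
    simp only [norm_sub_sq', sum_sub_distrib, sum_add_distrib, ← mul_sum]
    rw [h7, h7]
    ring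
  have h8 : ∑ n, ‖av x b q r G n‖ ^ 2 = ∑ n, ‖G n‖ ^ 2 - 1 / ((b ^ q : ℕ) : ℝ) ^ 2 *
      ∑ τ : Fin (b ^ q), ∑ τ' : Fin (b ^ q),
        (1 / 2 * nd G ((((τ' : ℕ) : ℤ) - ((τ : ℕ) : ℤ) : ℤ) * (b : ZMod x) ^ r)) := by
    simp only [h1]
    rw [← mul_sum, sum_comm]
    have h9 : ∀ τ : Fin (b ^ q), ∑ n : ZMod x, ∑ τ' : Fin (b ^ q),
        (G (n + ((τ : ℕ) : ZMod x) * (b : ZMod x) ^ r) *
        (starRingEnd ℂ) (G (n + ((τ' : ℕ) : ZMod x) * (b : ZMod x) ^ r))).re =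
        ∑ τ' : Fin (b ^ q), (∑ n, ‖G n‖ ^ 2 -
          1 / 2 * nd G ((((τ' : ℕ) : ℤ) - ((τ : ℕ) : ℤ) : ℤ) * (b : ZMod x) ^ r)) := by
      intro τ
      rw [sum_comm]
      exact sum_congr rfl fun τ' _ => h5 τ τ'
    rw [sum_congr rfl fun τ _ => h9 τ]
    simp only [sum_sub_distrib, sum_const, card_univ, Fintype.card_fin, nsmul_eq_mul]
    rw [mul_sub]
    congr 1
    field_simp
  rw [h8]
  have h10 : ∀ τ τ' : Fin (b ^ q),
      1 / 2 * nd G ((((τ' : ℕ) : ℤ) - ((τ : ℕ) : ℤ) : ℤ) * (b : ZMod x) ^ r) ≤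
        1 / 2 * (((b ^ q : ℕ) : ℝ) ^ 2 * nd G ((b : ZMod x) ^ r)) := by
    intro τ τ'
    refine mul_le_mul_of_nonneg_left ?_ (by norm_num)
    refine (nd_int_mul G _ _).trans (mul_le_mul_of_nonneg_right ?_ (nd_nonneg _ _))
    have h11 : ((τ : ℕ) : ℝ) < ((b ^ q : ℕ) : ℝ) := by exact_mod_cast τ.2
    have h12 : ((τ' : ℕ) : ℝ) < ((b ^ q : ℕ) : ℝ) := by exact_mod_cast τ'.2
    have h13 : (0 : ℝ) ≤ ((τ : ℕ) : ℝ) := Nat.cast_nonneg _
    have h14 : (0 : ℝ) ≤ ((τ' : ℕ) : ℝ) := Nat.cast_nonneg _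
    rw [Int.cast_sub, Int.cast_natCast, Int.cast_natCast]
    exact sq_le_sq' (by linarith) (by linarith)
  have h15 : ∑ τ : Fin (b ^ q), ∑ τ' : Fin (b ^ q),
        (1 / 2 * nd G ((((τ' : ℕ) : ℤ) - ((τ : ℕ) : ℤ) : ℤ) * (b : ZMod x) ^ r)) ≤
      ((b ^ q : ℕ) : ℝ) ^ 2 * (1 / 2 * (((b ^ q : ℕ) : ℝ) ^ 2 * nd G ((b : ZMod x) ^ r))) := by
    refine (sum_le_sum fun τ _ => sum_le_sum fun τ' _ => h10 τ τ').trans_eq ?_
    simp only [sum_const, card_univ, Fintype.card_fin, nsmul_eq_mul]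
    ring
  have h16 := mul_le_mul_of_nonneg_left h15
    (by positivity : (0 : ℝ) ≤ 1 / ((b ^ q : ℕ) : ℝ) ^ 2)
  have h17 : 1 / ((b ^ q : ℕ) : ℝ) ^ 2 * (((b ^ q : ℕ) : ℝ) ^ 2 *
      (1 / 2 * (((b ^ q : ℕ) : ℝ) ^ 2 * nd G ((b : ZMod x) ^ r)))) =
      1 / 2 * (((b ^ q : ℕ) : ℝ) ^ 2 * nd G ((b : ZMod x) ^ r)) := by
    field_simp
  rw [h17] at h16
  linarith

/-- STABILITY IN THE SQUARE MEAN -/
theorem dif_le {b q : ℕ} (hQ : 0 < b ^ q) {p : ℝ} (hp0 : 0 ≤ p) (hp1 : p ≤ 1) (m : ℕ) :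
    ∀ (r : ℕ) (G : ZMod x → ℂ), dif x b q p m r G ≤ p * ((b ^ q : ℕ) : ℝ) ^ 2 *
      ∑ B : Fin m, nd G ((b : ZMod x) ^ (r + (B : ℕ) * q)) := by
  induction m with
  | zero =>
    intro r G
    unfold dif
    rw [Fintype.sum_unique]
    simp [P, z]
  | succ m ih =>
    intro r G
    have h1 := ih (r + q) G
    have h2 := dif_av hQ hp0 hp1 m (r + q) r G
    have h3 := av_loss b q r hQ G
    have h4 : dif x b q p (m + 1) r G = (1 - p) * dif x b q p m (r + q) G +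
        p * dif x b q p m (r + q) (av x b q r G) +
        p * (2 * (∑ n, ‖G n‖ ^ 2 - ∑ n, ‖av x b q r G n‖ ^ 2)) := by
      rw [dif_eq hQ, dif_eq hQ, dif_eq hQ, form_succ hQ, Complex.add_re, Complex.re_ofReal_mul,
        Complex.re_ofReal_mul]
      have e1 : (fun n => (starRingEnd ℂ) (av x b q r G n)) =
          av x b q r (fun n => (starRingEnd ℂ) (G n)) := funext fun n => conj_av b q r G n
      rw [e1]
      ring
    rw [h4, Fin.sum_univ_succ]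
    have h5 : ∀ B : Fin m, nd G ((b : ZMod x) ^ (r + ((B.succ : Fin (m + 1)) : ℕ) * q)) =
        nd G ((b : ZMod x) ^ (r + q + (B : ℕ) * q)) := by
      intro B
      congr 2
      rw [Fin.val_succ]
      ring
    rw [sum_congr rfl fun B _ => h5 B]
    simp only [Fin.val_zero, zero_mul, add_zero]
    have h6 := mul_le_mul_of_nonneg_left h2 hp0
    have h7 := mul_le_mul_of_nonneg_left h3 hp0
    linarith

end

/-- the same with the law of the noise -/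
theorem stE (b q r m K : ℕ) (p : ℝ) (hb : 2 ≤ b) (hp0 : 0 ≤ p) (hp1 : p ≤ 1)
    [hF : Fintype (ZMod (b ^ K))] (G : ZMod (b ^ K) → ℂ) :
    ∑ n, ∑ t, Pool.Agent.Helper7.SC.law b q r m K p t * ‖G n - G (n + t)‖ ^ 2 ≤
      p * ((b : ℝ) ^ q) ^ 2 * ∑ B : Fin m,
        ∑ n, ‖G n - G (n + (b : ZMod (b ^ K)) ^ (r + (B : ℕ) * q))‖ ^ 2 := by
  have hx : NeZero (b ^ K) := ⟨(Nat.pow_pos (by omega)).ne'⟩
  have hQ : 0 < b ^ q := Nat.pow_pos (by omega)
  have hF' : hF = ZMod.fintype (b ^ K) := Subsingleton.elim _ _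
  subst hF'
  have h1 : ∑ n, ∑ t, Pool.Agent.Helper7.SC.law b q r m K p t * ‖G n - G (n + t)‖ ^ 2 =
      dif (b ^ K) b q p m r G := by
    unfold dif
    rw [sum_comm]
    unfold Pool.Agent.Helper7.SC.law
    simp only [sum_mul, ite_mul, zero_mul]
    have h2 : ∀ t : ZMod (b ^ K), ∑ n : ZMod (b ^ K), ∑ ω : Fin m → St (b ^ q),
        (if ((z b q r ω : ℤ) : ZMod (b ^ K)) = t then P p ω * ‖G n - G (n + t)‖ ^ 2 else 0) =
        ∑ ω : Fin m → St (b ^ q), if ((z b q r ω : ℤ) : ZMod (b ^ K)) = t then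
          P p ω * ∑ n : ZMod (b ^ K), ‖G n - G (n + t)‖ ^ 2 else 0 := by
      intro t
      rw [sum_comm]
      refine sum_congr rfl fun ω _ => ?_
      split_ifs
      · rw [mul_sum]
      · simp
    rw [sum_congr rfl fun t _ => h2 t, sum_comm]
    refine sum_congr rfl fun ω _ => ?_
    rw [sum_ite_eq]
    simp
  rw [h1]
  have h3 := dif_le (x := b ^ K) hQ hp0 hp1 m r G
  push_cast at h3
  exact h3

/-- (E) the energy of the noise, the frame of helper45 -/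
theorem stEn : Pool.Agent.Helper45.HD.StEn := by
  intro b q r m K p hb hrK hp0 hp1 hF G
  have h1 := stE b q r m K p hb hp0 hp1 (fun n => (G n : ℂ))
  have h2 : ∀ u v : ℝ, ‖(u : ℂ) - (v : ℂ)‖ ^ 2 = (u - v) ^ 2 := by
    intro u v
    rw [← Complex.ofReal_sub, Complex.norm_real, Real.norm_eq_abs, sq_abs]
  simp only [h2] at h1
  have hnn : ∀ j : ℕ, 0 ≤ ∑ n, (G n - G (n + (b : ZMod (b ^ K)) ^ j)) ^ 2 := fun j =>
    sum_nonneg fun _ _ => sq_nonneg _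
  rcases Nat.eq_zero_or_pos q with hq | hq
  · -- no jumps at all
    subst hq
    have hz : ∀ ω : Fin m → St (b ^ 0), z b 0 r ω = 0 := by
      intro ω
      unfold z
      refine sum_eq_zero fun B _ => ?_
      have : jump (b ^ 0) (ω B) = 0 := by
        rcases ω B with _ | ⟨s, t⟩
        · rfl
        · have hs : (s : ℕ) = 0 := Nat.lt_one_iff.1 (lt_of_lt_of_eq s.2 (pow_zero b))
          have ht : (t : ℕ) = 0 := Nat.lt_one_iff.1 (lt_of_lt_of_eq t.2 (pow_zero b))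
          simp only [jump, hs, ht]
          norm_num
      rw [this, zero_mul]
    have hlaw : ∀ n t : ZMod (b ^ K), Pool.Agent.Helper7.SC.law b 0 r m K p t *
        (G n - G (n + t)) ^ 2 = 0 := by
      intro n t
      by_cases ht : t = 0
      · rw [ht, add_zero, sub_self]
        ring
      · have : Pool.Agent.Helper7.SC.law b 0 r m K p t = 0 := by
          unfold Pool.Agent.Helper7.SC.law
          refine sum_eq_zero fun ω _ => ?_
          rw [hz, Int.cast_zero, if_neg (Ne.symm ht)]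
        rw [this, zero_mul]
    have h3 : ∑ n, ∑ t, Pool.Agent.Helper7.SC.law b 0 r m K p t * (G n - G (n + t)) ^ 2 = 0 :=
      sum_eq_zero fun n _ => sum_eq_zero fun t _ => hlaw n t
    rw [h3]
    exact mul_nonneg (mul_nonneg hp0 (by positivity)) (sum_nonneg fun j _ => hnn j)
  · refine h1.trans (mul_le_mul_of_nonneg_left ?_ (mul_nonneg hp0 (by positivity)))
    have hinj : Set.InjOn (fun B : Fin m => r + (B : ℕ) * q) (univ : Finset (Fin m)) := by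
      intro B _ B' _ h
      simp only at h
      have h4 : (B : ℕ) * q = (B' : ℕ) * q := by omega
      exact Fin.ext (Nat.eq_of_mul_eq_mul_right hq h4)
    rw [← sum_image (f := fun j => ∑ n, (G n - G (n + (b : ZMod (b ^ K)) ^ j)) ^ 2) hinj]
    refine sum_le_sum_of_subset_of_nonneg ?_ fun j _ _ => hnn j
    intro j hj
    rw [mem_image] at hj
    obtain ⟨B, _, rfl⟩ := hj
    rw [mem_range]
    have h5 : ((B : ℕ) + 1) * q ≤ m * q := Nat.mul_le_mul_right _ B.2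
    rw [Nat.add_mul, one_mul] at h5
    omega

end Pool.Agent.Helper81.SC
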