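import Mathlib

/-!
Noise and average sensitivity on the residues modulo `x`.
-/

set_option autoImplicit false

open Finset

namespace Pool.Agent.Helper81.SC

variable {x : ℕ} [NeZero x]

/-- the number of residues `n` with `J n ≠ J (n + d)` -/
def del (J : ZMod x → ℕ) (d : ZMod x) : ℕ := #{n : ZMod x | J n ≠ J (n + d)}

theorem del_zero (J : ZMod x → ℕ) : del J 0 = 0 := by
  unfold del
  simp

theorem del_add (J : ZMod x → ℕ) (d e : ZMod x) : del J (d + e) ≤ del J d + del J e := by
  unfold del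
  have h1 : ({n : ZMod x | J n ≠ J (n + (d + e))} : Finset (ZMod x)) ⊆
      ({n : ZMod x | J n ≠ J (n + d)} : Finset (ZMod x)) ∪
      (({n : ZMod x | J n ≠ J (n + e)} : Finset (ZMod x)).image fun n => n - d) := by
    intro n hn
    rw [mem_filter] at hn
    rw [mem_union, mem_filter, mem_image]
    by_cases h : J n = J (n + d)
    · right
      refine ⟨n + d, ?_, by ring⟩
      rw [mem_filter]
      refine ⟨mem_univ _, ?_⟩
      rw [← h, add_assoc]
      exact hn.2
    · left
      exact ⟨mem_univ _, h⟩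
  exact (card_le_card h1).trans ((card_union_le _ _).trans
    (Nat.add_le_add_left card_image_le _))

theorem del_neg_le (J : ZMod x → ℕ) (d : ZMod x) : del J (-d) ≤ del J d := by
  unfold del
  have h1 : ({n : ZMod x | J n ≠ J (n + -d)} : Finset (ZMod x)) ⊆
      (({n : ZMod x | J n ≠ J (n + d)} : Finset (ZMod x)).image fun n => n + d) := by
    intro n hn
    rw [mem_filter] at hn
    rw [mem_image]
    refine ⟨n - d, ?_, by ring⟩
    rw [mem_filter]
    refine ⟨mem_univ _, ?_⟩
    have e1 : n - d + d = n := by ring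
    have e2 : n - d = n + -d := by ring
    rw [e1, e2]
    exact fun h => hn.2 h.symm
  exact (card_le_card h1).trans card_image_le

theorem del_mul (J : ZMod x → ℕ) (d : ZMod x) (t : ℕ) : del J (t * d) ≤ t * del J d := by
  induction t with
  | zero => simp [del_zero]
  | succ t ih =>
    have e1 : ((t + 1 : ℕ) : ZMod x) * d = t * d + d := by push_cast; ring
    rw [e1]
    refine (del_add J _ _).trans ?_
    rw [Nat.succ_mul]
    omega

/-- the digits of the shift -/
theorem del_digits (J : ZMod x → ℕ) {b : ℕ} (hb : 1 ≤ b) (u : ℕ) : ∀ q t : ℕ, t < b ^ q →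
    del J ((t : ZMod x) * (b : ZMod x) ^ u) ≤
      (b - 1) * ∑ j ∈ range q, del J ((b : ZMod x) ^ (u + j)) := by
  intro q
  induction q with
  | zero =>
    intro t ht
    have : t = 0 := by simpa using ht
    subst this
    simp [del_zero]
  | succ q ih =>
    intro t ht
    have hbq : 0 < b ^ q := Nat.pow_pos hb
    have h1 := Nat.mod_add_div t (b ^ q)
    have h2 : t / b ^ q < b := by
      rw [Nat.div_lt_iff_lt_mul hbq, Nat.mul_comm]
      rwa [pow_succ] at ht
    have h3 : t % b ^ q < b ^ q := Nat.mod_lt _ hbq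
    have e1 : (t : ZMod x) * (b : ZMod x) ^ u = ((t % b ^ q : ℕ) : ZMod x) * (b : ZMod x) ^ u +
        ((t / b ^ q : ℕ) : ZMod x) * (b : ZMod x) ^ (u + q) := by
      have e2 : (t : ZMod x) = ((t % b ^ q + b ^ q * (t / b ^ q) : ℕ) : ZMod x) := by rw [h1]
      conv_lhs => rw [e2]
      push_cast
      ring
    rw [e1, sum_range_succ, Nat.mul_add]
    refine (del_add J _ _).trans (Nat.add_le_add (ih _ h3) ?_)
    refine (del_mul J _ _).trans ?_
    exact Nat.mul_le_mul_right _ (by omega)

/-- the law of `∑ β (τ - τ') b ^ u`, the sum over the list, `β` Bernoulli with parameter `p`, `τ` and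
`τ'` uniform below `Q` -/
noncomputable def law (x : ℕ) [NeZero x] (p : ℝ) (b Q : ℕ) : List ℕ → ZMod x → ℝ
  | [], d => if d = 0 then 1 else 0
  | u :: us, d => (1 - p) * law x p b Q us d + p / (Q : ℝ) ^ 2 *
      ∑ s ∈ range Q, ∑ t ∈ range Q,
        law x p b Q us (d - ((s : ZMod x) - (t : ZMod x)) * (b : ZMod x) ^ u)

theorem law_nonneg {p : ℝ} (hp0 : 0 ≤ p) (hp1 : p ≤ 1) (b Q : ℕ) (us : List ℕ) :
    ∀ d : ZMod x, 0 ≤ law x p b Q us d := by
  induction us with
  | nil =>
    intro d
    unfold law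
    split_ifs <;> norm_num
  | cons u us ih =>
    intro d
    unfold law
    have h1 : 0 ≤ 1 - p := by linarith
    have h2 : 0 ≤ ∑ s ∈ range Q, ∑ t ∈ range Q,
        law x p b Q us (d - ((s : ZMod x) - (t : ZMod x)) * (b : ZMod x) ^ u) :=
      sum_nonneg fun s _ => sum_nonneg fun t _ => ih _
    have h3 := ih d
    positivity

theorem sum_law {p : ℝ} (b : ℕ) {Q : ℕ} (hQ : 0 < Q) (us : List ℕ) :
    ∑ d : ZMod x, law x p b Q us d = 1 := by
  induction us with
  | nil =>
    unfold law
    simp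
  | cons u us ih =>
    have hQ' : (Q : ℝ) ≠ 0 := by exact_mod_cast hQ.ne'
    unfold law
    rw [sum_add_distrib, ← mul_sum, ← mul_sum, ih, sum_comm]
    have h1 : ∀ s ∈ range Q, ∑ d : ZMod x, ∑ t ∈ range Q,
        law x p b Q us (d - ((s : ZMod x) - (t : ZMod x)) * (b : ZMod x) ^ u) = Q := by
      intro s _
      rw [sum_comm]
      have h2 : ∀ t ∈ range Q, ∑ d : ZMod x,
          law x p b Q us (d - ((s : ZMod x) - (t : ZMod x)) * (b : ZMod x) ^ u) = 1 := by
        intro t _
        rw [← ih]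
        exact Fintype.sum_equiv (Equiv.subRight _) _ _ fun d => rfl
      rw [sum_congr rfl h2]
      simp
    rw [sum_congr rfl h1]
    simp only [sum_const, card_range, nsmul_eq_mul]
    field_simp
    ring

/-- STABILITY UNDER NOISE. -/
theorem stab (J : ZMod x → ℕ) {p : ℝ} (hp0 : 0 ≤ p) (hp1 : p ≤ 1) {b : ℕ} (hb : 1 ≤ b) (q : ℕ)
    (us : List ℕ) : ∑ d : ZMod x, law x p b (b ^ q) us d * del J d ≤
      2 * (b - 1) * p * (us.map fun u => ∑ j ∈ range q,
        (del J ((b : ZMod x) ^ (u + j)) : ℝ)).sum := by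
  have hQ : 0 < b ^ q := Nat.pow_pos hb
  have hQ' : ((b ^ q : ℕ) : ℝ) ≠ 0 := by exact_mod_cast hQ.ne'
  have hb' : (1 : ℝ) ≤ b := by exact_mod_cast hb
  induction us with
  | nil =>
    unfold law
    simp [del_zero]
  | cons u us ih =>
    set W : ℝ := ∑ d : ZMod x, law x p b (b ^ q) us d * del J d with hW
    set D : ℝ := ∑ j ∈ range q, (del J ((b : ZMod x) ^ (u + j)) : ℝ) with hD
    have hdig : ∀ s t : ℕ, s < b ^ q → t < b ^ q →
        (del J (((s : ZMod x) - (t : ZMod x)) * (b : ZMod x) ^ u) : ℝ) ≤ 2 * (b - 1) * D := by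
      intro s t hs ht
      have h1 := del_digits J hb u q s hs
      have h2 := del_digits J hb u q t ht
      have e1 : ((s : ZMod x) - (t : ZMod x)) * (b : ZMod x) ^ u
          = (s : ZMod x) * (b : ZMod x) ^ u + -((t : ZMod x) * (b : ZMod x) ^ u) := by ring
      have h3 : del J (((s : ZMod x) - (t : ZMod x)) * (b : ZMod x) ^ u) ≤
          2 * ((b - 1) * ∑ j ∈ range q, del J ((b : ZMod x) ^ (u + j))) := by
        rw [e1]
        refine (del_add J _ _).trans ?_
        have h4 := del_neg_le J ((t : ZMod x) * (b : ZMod x) ^ u)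
        omega
      have h4 : ((del J (((s : ZMod x) - (t : ZMod x)) * (b : ZMod x) ^ u) : ℕ) : ℝ) ≤
          ((2 * ((b - 1) * ∑ j ∈ range q, del J ((b : ZMod x) ^ (u + j))) : ℕ) : ℝ) := by
        exact_mod_cast h3
      refine h4.trans_eq ?_
      push_cast [Nat.cast_sub hb]
      rw [hD]
      ring
    have hshift : ∀ e : ZMod x, ∑ d : ZMod x, law x p b (b ^ q) us (d - e) * del J d ≤
        W + del J e := by
      intro e
      have h1 : ∑ d : ZMod x, law x p b (b ^ q) us (d - e) * del J d
          = ∑ d : ZMod x, law x p b (b ^ q) us d * del J (d + e) :=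
        Fintype.sum_equiv (Equiv.subRight e) _ _ fun d => by
          simp [Equiv.subRight]
      rw [h1]
      have h2 : ∑ d : ZMod x, law x p b (b ^ q) us d * del J (d + e) ≤
          ∑ d : ZMod x, (law x p b (b ^ q) us d * del J d + law x p b (b ^ q) us d * del J e) := by
        refine sum_le_sum fun d _ => ?_
        have h3 : (del J (d + e) : ℝ) ≤ del J d + del J e := by exact_mod_cast del_add J d e
        have h4 := mul_le_mul_of_nonneg_left h3 (law_nonneg hp0 hp1 b (b ^ q) us d)
        linarith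
      refine h2.trans_eq ?_
      rw [sum_add_distrib, ← sum_mul, sum_law b hQ us, one_mul]
    have hexp : ∑ d : ZMod x, law x p b (b ^ q) (u :: us) d * del J d =
        (1 - p) * W + p / ((b ^ q : ℕ) : ℝ) ^ 2 * ∑ s ∈ range (b ^ q), ∑ t ∈ range (b ^ q),
          ∑ d : ZMod x, law x p b (b ^ q) us
            (d - ((s : ZMod x) - (t : ZMod x)) * (b : ZMod x) ^ u) * del J d := by
      have h1 : ∀ d : ZMod x, law x p b (b ^ q) (u :: us) d * del J d =
          (1 - p) * (law x p b (b ^ q) us d * del J d) + p / ((b ^ q : ℕ) : ℝ) ^ 2 *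
            ∑ s ∈ range (b ^ q), ∑ t ∈ range (b ^ q), law x p b (b ^ q) us
              (d - ((s : ZMod x) - (t : ZMod x)) * (b : ZMod x) ^ u) * del J d := by
        intro d
        rw [law]
        simp only [← sum_mul]
        ring
      rw [sum_congr rfl fun d _ => h1 d, sum_add_distrib, ← mul_sum, ← mul_sum]
      congr 2
      rw [sum_comm]
      refine sum_congr rfl fun s _ => ?_
      rw [sum_comm]
    rw [hexp]
    have h5 : ∑ s ∈ range (b ^ q), ∑ t ∈ range (b ^ q),
          ∑ d : ZMod x, law x p b (b ^ q) us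
            (d - ((s : ZMod x) - (t : ZMod x)) * (b : ZMod x) ^ u) * del J d ≤
        ∑ s ∈ range (b ^ q), ∑ t ∈ range (b ^ q), (W + 2 * (b - 1) * D) := by
      refine sum_le_sum fun s hs => sum_le_sum fun t ht => ?_
      exact (hshift _).trans (by
        have := hdig s t (mem_range.1 hs) (mem_range.1 ht)
        linarith)
    have h6 : ∑ s ∈ range (b ^ q), ∑ t ∈ range (b ^ q), (W + 2 * (b - 1) * D) =
        ((b ^ q : ℕ) : ℝ) ^ 2 * (W + 2 * (b - 1) * D) := by
      rw [sum_const, sum_const, card_range, nsmul_eq_mul, nsmul_eq_mul]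
      ring
    rw [h6] at h5
    have h7 : p / ((b ^ q : ℕ) : ℝ) ^ 2 * ∑ s ∈ range (b ^ q), ∑ t ∈ range (b ^ q),
          ∑ d : ZMod x, law x p b (b ^ q) us
            (d - ((s : ZMod x) - (t : ZMod x)) * (b : ZMod x) ^ u) * del J d ≤
        p * (W + 2 * (b - 1) * D) := by
      have h8 : 0 ≤ p / ((b ^ q : ℕ) : ℝ) ^ 2 := by positivity
      refine (mul_le_mul_of_nonneg_left h5 h8).trans_eq ?_
      field_simp
    rw [List.map_cons, List.sum_cons]
    have h9 : 2 * ((b : ℝ) - 1) * p * (D + (us.map fun u => ∑ j ∈ range q,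
        (del J ((b : ZMod x) ^ (u + j)) : ℝ)).sum) = p * (2 * (b - 1) * D) +
        2 * (b - 1) * p * (us.map fun u => ∑ j ∈ range q,
          (del J ((b : ZMod x) ^ (u + j)) : ℝ)).sum := by ring
    rw [h9]
    linarith

end Pool.Agent.Helper81.SC
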