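import Pool.Agent.Helper7.SC.Frames
import Pool.Agent.Helper81.SC.Stab

/-!
Stability under the noise, in the form of the frame.
-/

set_option autoImplicit false

open Finset

namespace Pool.Agent.Helper81.SC

open Pool.Agent.Helper7.SC (St wt jump P z)

theorem sum_wt {Q : ℕ} (hQ : 0 < Q) (p : ℝ) : ∑ s : St Q, wt Q p s = 1 := by
  have hQ' : (Q : ℝ) ≠ 0 := by exact_mod_cast hQ.ne'
  rw [Fintype.sum_option]
  simp only [wt, sum_const, card_univ, Fintype.card_prod, Fintype.card_fin, nsmul_eq_mul]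
  push_cast
  field_simp
  ring

theorem wt_nonneg {Q : ℕ} {p : ℝ} (hp0 : 0 ≤ p) (hp1 : p ≤ 1) (s : St Q) : 0 ≤ wt Q p s := by
  cases s with
  | none => simp only [wt]; linarith
  | some t => simp only [wt]; positivity

/-- the mean of a function of one coordinate of the noise -/
theorem sum_P_one {Q m : ℕ} (hQ : 0 < Q) (p : ℝ) (B : Fin m) (h : St Q → ℝ) :
    ∑ ω : Fin m → St Q, P p ω * h (ω B) = ∑ s : St Q, wt Q p s * h s := by
  classical
  have h1 : ∀ ω : Fin m → St Q, P p ω * h (ω B) =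
      ∏ i, (wt Q p (ω i) * if i = B then h (ω i) else 1) := by
    intro ω
    rw [prod_mul_distrib, prod_ite_eq' univ B (fun i => h (ω i)), if_pos (mem_univ B)]
    rfl
  rw [sum_congr rfl fun ω _ => h1 ω]
  have h2 := Finset.prod_univ_sum (fun _ : Fin m => (univ : Finset (St Q)))
    (fun i s => wt Q p s * if i = B then h s else 1)
  rw [Fintype.piFinset_univ] at h2
  rw [← h2, ← mul_prod_erase univ _ (mem_univ B)]
  have h3 : ∏ i ∈ univ.erase B, ∑ s : St Q, (wt Q p s * if i = B then h s else 1) = 1 := by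
    refine prod_eq_one fun i hi => ?_
    refine (sum_congr rfl fun s _ => ?_).trans (sum_wt hQ p)
    rw [if_neg (ne_of_mem_erase hi), mul_one]
  rw [h3, mul_one]
  simp

theorem del_sum {x : ℕ} [NeZero x] (J : ZMod x → ℕ) {ι : Type*} (s : Finset ι) (g : ι → ZMod x) :
    del J (∑ i ∈ s, g i) ≤ ∑ i ∈ s, del J (g i) := by
  classical
  induction s using Finset.induction_on with
  | empty => simp [del_zero]
  | insert a s ha ih =>
    rw [sum_insert ha, sum_insert ha]
    exact (del_add J _ _).trans (Nat.add_le_add_left ih _)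

/-- (B) STABILITY, the frame of helper7 -/
theorem stB : Pool.Agent.Helper7.SC.StB := by
  intro b q r m K p hb hrK hp0 hp1 hF J
  have hx : NeZero (b ^ K) := ⟨(Nat.pow_pos (by omega)).ne'⟩
  have hQ : 0 < b ^ q := Nat.pow_pos (by omega)
  have hQ' : ((b ^ q : ℕ) : ℝ) ≠ 0 := by exact_mod_cast hQ.ne'
  have hb1 : (1 : ℝ) ≤ b := by exact_mod_cast (by omega : 1 ≤ b)
  have hcard : ∀ (inst : Fintype (ZMod (b ^ K))) (d : ZMod (b ^ K)),
      (#(@Finset.filter _ (fun n => J n ≠ J (n + d)) _ (@Finset.univ _ inst)) : ℝ)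
        = (del J d : ℝ) := by
    intro inst d
    rw [Subsingleton.elim inst (ZMod.fintype (b ^ K))]
    rfl
  have hsum : ∀ t : ZMod (b ^ K), ∑ n, (Pool.Agent.Helper7.SC.law b q r m K p t *
      (if J n = J (n + t) then (0 : ℝ) else 1)) =
      Pool.Agent.Helper7.SC.law b q r m K p t * del J t := by
    intro t
    rw [← mul_sum, ← hcard hF t]
    congr 1
    rw [card_filter]
    push_cast
    refine sum_congr rfl fun n _ => ?_
    by_cases h : J n = J (n + t)
    · simp [h]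
    · simp [h]
  rw [sum_comm, sum_congr rfl fun t _ => hsum t]
  have hcollapse : ∑ t, Pool.Agent.Helper7.SC.law b q r m K p t * (del J t : ℝ) =
      ∑ ω : Fin m → St (b ^ q), P p ω * (del J ((z b q r ω : ℤ) : ZMod (b ^ K)) : ℝ) := by
    unfold Pool.Agent.Helper7.SC.law
    simp only [sum_mul]
    rw [sum_comm]
    refine sum_congr rfl fun ω _ => ?_
    simp only [ite_mul, zero_mul]
    rw [sum_ite_eq]
    simp
  rw [hcollapse]
  set D : ℕ → ℝ := fun B => ∑ j ∈ range q, (del J ((b : ZMod (b ^ K)) ^ (r + B * q + j)) : ℝ)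
    with hD
  have hstep : ∀ ω : Fin m → St (b ^ q), (del J ((z b q r ω : ℤ) : ZMod (b ^ K)) : ℝ) ≤
      ∑ B : Fin m, (del J ((jump (b ^ q) (ω B) : ZMod (b ^ K)) *
        (b : ZMod (b ^ K)) ^ (r + B * q)) : ℝ) := by
    intro ω
    have h1 : ((z b q r ω : ℤ) : ZMod (b ^ K)) = ∑ B : Fin m,
        (jump (b ^ q) (ω B) : ZMod (b ^ K)) * (b : ZMod (b ^ K)) ^ (r + B * q) := by
      unfold z
      push_cast
      rfl
    rw [h1]
    have h2 := del_sum J univ fun B : Fin m =>
      (jump (b ^ q) (ω B) : ZMod (b ^ K)) * (b : ZMod (b ^ K)) ^ (r + (B : ℕ) * q)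
    rw [← Nat.cast_sum]
    exact Nat.cast_le.2 h2
  have hP : ∀ ω : Fin m → St (b ^ q), 0 ≤ P p ω := fun ω =>
    prod_nonneg fun B _ => wt_nonneg hp0 hp1 _
  have hone : ∀ B : Fin m, ∑ s : St (b ^ q), wt (b ^ q) p s *
      (del J ((jump (b ^ q) s : ZMod (b ^ K)) * (b : ZMod (b ^ K)) ^ (r + B * q)) : ℝ) ≤
      2 * (b - 1) * p * D B := by
    intro B
    rw [Fintype.sum_option]
    have h0 : (jump (b ^ q) none : ZMod (b ^ K)) = 0 := by simp [jump]
    rw [h0, zero_mul, del_zero, Nat.cast_zero, mul_zero, zero_add]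
    have h1 : ∀ t : Fin (b ^ q) × Fin (b ^ q), wt (b ^ q) p (some t) *
        (del J ((jump (b ^ q) (some t) : ZMod (b ^ K)) *
          (b : ZMod (b ^ K)) ^ (r + (B : ℕ) * q)) : ℝ) ≤
        p / ((b ^ q : ℕ) : ℝ) ^ 2 * (2 * (b - 1) * D B) := by
      intro t
      have h2 := del_digits J (by omega : 1 ≤ b) (r + (B : ℕ) * q) q t.1 t.1.2
      have h3 := del_digits J (by omega : 1 ≤ b) (r + (B : ℕ) * q) q t.2 t.2.2
      have e1 : (jump (b ^ q) (some t) : ZMod (b ^ K)) * (b : ZMod (b ^ K)) ^ (r + (B : ℕ) * q)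
          = ((t.1 : ℕ) : ZMod (b ^ K)) * (b : ZMod (b ^ K)) ^ (r + (B : ℕ) * q) +
            -(((t.2 : ℕ) : ZMod (b ^ K)) * (b : ZMod (b ^ K)) ^ (r + (B : ℕ) * q)) := by
        simp only [jump]
        push_cast
        ring
      have h4 : del J ((jump (b ^ q) (some t) : ZMod (b ^ K)) *
          (b : ZMod (b ^ K)) ^ (r + (B : ℕ) * q)) ≤
          2 * ((b - 1) * ∑ j ∈ range q, del J ((b : ZMod (b ^ K)) ^ (r + (B : ℕ) * q + j))) := by
        rw [e1]
        refine (del_add J _ _).trans ?_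
        have h5 := del_neg_le J (((t.2 : ℕ) : ZMod (b ^ K)) *
          (b : ZMod (b ^ K)) ^ (r + (B : ℕ) * q))
        omega
      have h6 : (del J ((jump (b ^ q) (some t) : ZMod (b ^ K)) *
          (b : ZMod (b ^ K)) ^ (r + (B : ℕ) * q)) : ℝ) ≤ 2 * (b - 1) * D B := by
        have h7 : ((del J ((jump (b ^ q) (some t) : ZMod (b ^ K)) *
          (b : ZMod (b ^ K)) ^ (r + (B : ℕ) * q)) : ℕ) : ℝ) ≤
          ((2 * ((b - 1) * ∑ j ∈ range q,
            del J ((b : ZMod (b ^ K)) ^ (r + (B : ℕ) * q + j))) : ℕ) : ℝ) := by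
          exact_mod_cast h4
        refine h7.trans_eq ?_
        push_cast [Nat.cast_sub (by omega : 1 ≤ b)]
        rw [hD]
        ring
      have h8 : (0 : ℝ) ≤ p / ((b ^ q : ℕ) : ℝ) ^ 2 := by positivity
      exact mul_le_mul_of_nonneg_left h6 h8
    refine (sum_le_sum fun t _ => h1 t).trans_eq ?_
    rw [sum_const, card_univ, Fintype.card_prod, Fintype.card_fin, nsmul_eq_mul]
    push_cast
    push_cast at hQ'
    field_simp
  have hmain : ∑ ω : Fin m → St (b ^ q), P p ω * (del J ((z b q r ω : ℤ) : ZMod (b ^ K)) : ℝ) ≤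
      ∑ B : Fin m, 2 * (b - 1) * p * D B := by
    calc ∑ ω : Fin m → St (b ^ q), P p ω * (del J ((z b q r ω : ℤ) : ZMod (b ^ K)) : ℝ)
        ≤ ∑ ω : Fin m → St (b ^ q), ∑ B : Fin m, P p ω *
            (del J ((jump (b ^ q) (ω B) : ZMod (b ^ K)) *
              (b : ZMod (b ^ K)) ^ (r + (B : ℕ) * q)) : ℝ) := by
          refine sum_le_sum fun ω _ => ?_
          rw [← mul_sum]
          exact mul_le_mul_of_nonneg_left (hstep ω) (hP ω)
      _ = ∑ B : Fin m, ∑ s : St (b ^ q), wt (b ^ q) p s *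
            (del J ((jump (b ^ q) s : ZMod (b ^ K)) *
              (b : ZMod (b ^ K)) ^ (r + (B : ℕ) * q)) : ℝ) := by
          rw [sum_comm]
          refine sum_congr rfl fun B _ => ?_
          exact sum_P_one hQ p B fun s => (del J ((jump (b ^ q) s : ZMod (b ^ K)) *
              (b : ZMod (b ^ K)) ^ (r + (B : ℕ) * q)) : ℝ)
      _ ≤ ∑ B : Fin m, 2 * (b - 1) * p * D B := sum_le_sum fun B _ => hone B
  refine hmain.trans ?_
  rw [← mul_sum]
  have hc : 0 ≤ 2 * ((b : ℝ) - 1) * p := by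
    have : (0 : ℝ) ≤ b - 1 := by linarith
    positivity
  refine mul_le_mul_of_nonneg_left ?_ hc
  have hr : ∑ j ∈ range K, (#{n | J n ≠ J (n + (b : ZMod (b ^ K)) ^ j)} : ℝ) =
      ∑ j ∈ range K, (del J ((b : ZMod (b ^ K)) ^ j) : ℝ) :=
    sum_congr rfl fun j _ => hcard hF _
  rw [hr]
  have hblocks : ∀ m : ℕ, ∑ B ∈ range m, D B =
      ∑ j ∈ range (m * q), (del J ((b : ZMod (b ^ K)) ^ (r + j)) : ℝ) := by
    intro m
    induction m with
    | zero => simp
    | succ m ih =>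
      rw [sum_range_succ, ih, Nat.succ_mul, sum_range_add]
      congr 1
      refine sum_congr rfl fun j _ => ?_
      rw [add_assoc]
  rw [Fin.sum_univ_eq_sum_range (fun B => D B) m, hblocks m]
  have h1 : ∑ j ∈ range (m * q), (del J ((b : ZMod (b ^ K)) ^ (r + j)) : ℝ) ≤
      ∑ j ∈ range (r + m * q), (del J ((b : ZMod (b ^ K)) ^ j) : ℝ) := by
    rw [sum_range_add]
    have : 0 ≤ ∑ j ∈ range r, (del J ((b : ZMod (b ^ K)) ^ j) : ℝ) :=
      sum_nonneg fun j _ => Nat.cast_nonneg _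
    linarith
  refine h1.trans ?_
  exact sum_le_sum_of_subset_of_nonneg (range_subset_range.2 hrK) fun j _ _ => Nat.cast_nonneg _

end Pool.Agent.Helper81.SC
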