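import Pool.Agent.Helper7.SC.Frames
import Pool.Agent.Helper81.SC.StB

/-!
Cauchy-Schwarz for the convolution with the law of the noise.
-/

set_option autoImplicit false
set_option linter.unusedVariables false

open Finset

namespace Pool.Agent.Helper81.SC

open Pool.Agent.Helper7.SC (St wt jump P z)

section form

variable {x : ℕ} [NeZero x]

omit [NeZero x] in
theorem sum4 {α β γ : Type*} [Fintype α] [Fintype β] [Fintype γ] (F : α → β → γ → γ → ℂ) :
    ∑ n, ∑ ω, ∑ τ, ∑ τ', F n ω τ τ' = ∑ τ, ∑ τ', ∑ ω, ∑ n, F n ω τ τ' :=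
  calc ∑ n, ∑ ω, ∑ τ, ∑ τ', F n ω τ τ' = ∑ n, ∑ τ, ∑ ω, ∑ τ', F n ω τ τ' :=
        sum_congr rfl fun n _ => sum_comm
    _ = ∑ τ, ∑ n, ∑ ω, ∑ τ', F n ω τ τ' := sum_comm
    _ = ∑ τ, ∑ n, ∑ τ', ∑ ω, F n ω τ τ' :=
        sum_congr rfl fun τ _ => sum_congr rfl fun n _ => sum_comm
    _ = ∑ τ, ∑ τ', ∑ n, ∑ ω, F n ω τ τ' := sum_congr rfl fun τ _ => sum_comm
    _ = ∑ τ, ∑ τ', ∑ ω, ∑ n, F n ω τ τ' :=
        sum_congr rfl fun τ _ => sum_congr rfl fun τ' _ => sum_comm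

/-- the form of the noise -/
noncomputable def form (x b q : ℕ) [NeZero x] (p : ℝ) (m r : ℕ) (g c : ZMod x → ℂ) : ℂ :=
  ∑ n : ZMod x, ∑ ω : Fin m → St (b ^ q), (P p ω : ℂ) * (g n * c (n + ((z b q r ω : ℤ) : ZMod x)))

/-- the mean over the shifts by `τ b ^ r` -/
noncomputable def av (x b q r : ℕ) (g : ZMod x → ℂ) (n : ZMod x) : ℂ :=
  (1 / ((b ^ q : ℕ) : ℂ)) * ∑ τ : Fin (b ^ q), g (n + ((τ : ℕ) : ZMod x) * (b : ZMod x) ^ r)

omit [NeZero x] in
theorem norm_av_le {b q r : ℕ} (hQ : 0 < b ^ q) {c : ZMod x → ℂ} (hc : ∀ n, ‖c n‖ ≤ 1)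
    (n : ZMod x) : ‖av x b q r c n‖ ≤ 1 := by
  have hQ' : (0 : ℝ) < ((b ^ q : ℕ) : ℝ) := by exact_mod_cast hQ
  unfold av
  rw [norm_mul, norm_div, norm_one, Complex.norm_natCast]
  have h1 : ‖∑ τ : Fin (b ^ q), c (n + ((τ : ℕ) : ZMod x) * (b : ZMod x) ^ r)‖ ≤
      ((b ^ q : ℕ) : ℝ) := by
    refine (norm_sum_le _ _).trans ((sum_le_sum fun τ _ => hc _).trans_eq ?_)
    simp
  rw [one_div, inv_mul_le_iff₀ hQ', mul_one]
  exact h1

omit [NeZero x] in
theorem conj_av (b q r : ℕ) (g : ZMod x → ℂ) (n : ZMod x) :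
    (starRingEnd ℂ) (av x b q r g n) = av x b q r (fun n => (starRingEnd ℂ) (g n)) n := by
  unfold av
  simp [map_mul, map_sum]

theorem z_cons (b q r : ℕ) {m : ℕ} (s : St (b ^ q)) (ω : Fin m → St (b ^ q)) :
    z b q r (Fin.cons s ω : Fin (m + 1) → St (b ^ q)) =
      jump (b ^ q) s * (b : ℤ) ^ r + z b q (r + q) ω := by
  unfold z
  rw [Fin.sum_univ_succ]
  simp only [Fin.cons_zero, Fin.cons_succ, Fin.val_zero, zero_mul, add_zero, Fin.val_succ]
  congr 1
  refine sum_congr rfl fun i _ => ?_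
  congr 2
  ring

theorem P_cons {Q m : ℕ} (p : ℝ) (s : St Q) (ω : Fin m → St Q) :
    P p (Fin.cons s ω : Fin (m + 1) → St Q) = wt Q p s * P p ω := by
  unfold P
  rw [Fin.prod_univ_succ]
  simp only [Fin.cons_zero, Fin.cons_succ]

theorem form_zero (b q : ℕ) (p : ℝ) (r : ℕ) (g c : ZMod x → ℂ) :
    form x b q p 0 r g c = ∑ n, g n * c n := by
  unfold form
  refine sum_congr rfl fun n _ => ?_
  rw [Fintype.sum_unique]
  simp [P, z]

theorem form_succ {b q : ℕ} (hQ : 0 < b ^ q) (p : ℝ) (m r : ℕ) (g c : ZMod x → ℂ) :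
    form x b q p (m + 1) r g c = (1 - p : ℝ) * form x b q p m (r + q) g c +
      (p : ℝ) * form x b q p m (r + q) (av x b q r g) (av x b q r c) := by
  have hQ' : ((b ^ q : ℕ) : ℂ) ≠ 0 := by exact_mod_cast hQ.ne'
  -- split off the first block
  have h1 : form x b q p (m + 1) r g c = ∑ s : St (b ^ q), (wt (b ^ q) p s : ℂ) *
      ∑ ω : Fin m → St (b ^ q), (P p ω : ℂ) * ∑ n : ZMod x, (g n * c (n +
        ((jump (b ^ q) s : ZMod x) * (b : ZMod x) ^ r + ((z b q (r + q) ω : ℤ) : ZMod x)))) := by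
    unfold form
    rw [sum_comm]
    rw [← Fintype.sum_equiv (Fin.consEquiv fun _ : Fin (m + 1) => St (b ^ q))
      (fun y : St (b ^ q) × (Fin m → St (b ^ q)) => ∑ n : ZMod x,
        (P p (Fin.cons y.1 y.2 : Fin (m + 1) → St (b ^ q)) : ℂ) *
          (g n * c (n + ((z b q r (Fin.cons y.1 y.2 : Fin (m + 1) → St (b ^ q)) : ℤ) : ZMod x))))
      _ (fun y => rfl)]
    rw [Fintype.sum_prod_type]
    refine sum_congr rfl fun s _ => ?_
    rw [mul_sum]
    refine sum_congr rfl fun ω _ => ?_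
    simp only [z_cons, P_cons, mul_sum]
    refine sum_congr rfl fun n _ => ?_
    push_cast
    ring
  -- the part of the jumps, after a translation
  have h2 : ∀ τ τ' : Fin (b ^ q), ∀ ω : Fin m → St (b ^ q),
      ∑ n : ZMod x, (g n * c (n + ((jump (b ^ q) (some (τ, τ')) : ZMod x) * (b : ZMod x) ^ r +
        ((z b q (r + q) ω : ℤ) : ZMod x)))) =
      ∑ n : ZMod x, (g (n + ((τ' : ℕ) : ZMod x) * (b : ZMod x) ^ r) *
        c (n + ((z b q (r + q) ω : ℤ) : ZMod x) + ((τ : ℕ) : ZMod x) * (b : ZMod x) ^ r)) := by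
    intro τ τ' ω
    symm
    refine Fintype.sum_equiv (Equiv.addRight (((τ' : ℕ) : ZMod x) * (b : ZMod x) ^ r)) _ _
      fun n => ?_
    simp only [Equiv.coe_addRight]
    congr 2
    simp only [jump]
    push_cast
    ring
  have h3 : form x b q p m (r + q) (av x b q r g) (av x b q r c) =
      (1 / ((b ^ q : ℕ) : ℂ)) ^ 2 * ∑ τ : Fin (b ^ q), ∑ τ' : Fin (b ^ q),
        ∑ ω : Fin m → St (b ^ q), ∑ n : ZMod x, (P p ω : ℂ) *
          (g (n + ((τ' : ℕ) : ZMod x) * (b : ZMod x) ^ r) *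
            c (n + ((z b q (r + q) ω : ℤ) : ZMod x) + ((τ : ℕ) : ZMod x) * (b : ZMod x) ^ r)) := by
    unfold form av
    have h4' : ∀ (n : ZMod x) (ω : Fin m → St (b ^ q)), (P p ω : ℂ) *
        (((1 / ((b ^ q : ℕ) : ℂ)) * ∑ τ : Fin (b ^ q),
          g (n + ((τ : ℕ) : ZMod x) * (b : ZMod x) ^ r)) *
        ((1 / ((b ^ q : ℕ) : ℂ)) * ∑ τ : Fin (b ^ q),
          c (n + ((z b q (r + q) ω : ℤ) : ZMod x) + ((τ : ℕ) : ZMod x) * (b : ZMod x) ^ r))) =
        (1 / ((b ^ q : ℕ) : ℂ)) ^ 2 * ∑ τ : Fin (b ^ q), ∑ τ' : Fin (b ^ q), (P p ω : ℂ) *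
          (g (n + ((τ' : ℕ) : ZMod x) * (b : ZMod x) ^ r) *
            c (n + ((z b q (r + q) ω : ℤ) : ZMod x) + ((τ : ℕ) : ZMod x) * (b : ZMod x) ^ r)) := by
      intro n ω
      simp only [← mul_sum]
      simp only [← sum_mul]
      simp only [← mul_sum]
      ring
    rw [sum_congr rfl fun n _ => sum_congr rfl fun ω _ => h4' n ω]
    simp only [← mul_sum]
    congr 1
    simp only [mul_sum]
    exact sum4 _
  rw [h1, Fintype.sum_option, Fintype.sum_prod_type, h3]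
  have h5 : ∑ ω : Fin m → St (b ^ q), (P p ω : ℂ) * ∑ n : ZMod x, (g n * c (n +
        ((jump (b ^ q) none : ZMod x) * (b : ZMod x) ^ r + ((z b q (r + q) ω : ℤ) : ZMod x)))) =
      form x b q p m (r + q) g c := by
    unfold form
    rw [sum_comm]
    refine sum_congr rfl fun ω _ => ?_
    rw [mul_sum]
    refine sum_congr rfl fun n _ => ?_
    simp [jump]
  rw [h5]
  congr 1
  rw [mul_sum, mul_sum]
  refine sum_congr rfl fun τ _ => ?_
  rw [mul_sum, mul_sum]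
  refine sum_congr rfl fun τ' _ => ?_
  simp only [wt]
  rw [mul_sum, mul_sum, mul_sum]
  refine sum_congr rfl fun ω _ => ?_
  rw [h2]
  simp only [mul_sum]
  refine sum_congr rfl fun n _ => ?_
  push_cast
  ring

theorem form_cs {b q : ℕ} (hQ : 0 < b ^ q) {p : ℝ} (hp0 : 0 ≤ p) (hp1 : p ≤ 1) (m : ℕ) :
    ∀ (r : ℕ) (g c : ZMod x → ℂ), (∀ n, ‖c n‖ ≤ 1) →
    ‖form x b q p m r g c‖ ^ 2 ≤
      x * (form x b q p m r g fun n => (starRingEnd ℂ) (g n)).re := by
  induction m with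
  | zero =>
    intro r g c hc
    rw [form_zero, form_zero]
    have h1 : (∑ n, g n * (starRingEnd ℂ) (g n)).re = ∑ n, ‖g n‖ ^ 2 := by
      rw [Complex.re_sum]
      refine sum_congr rfl fun n _ => ?_
      rw [Complex.mul_conj, Complex.ofReal_re, Complex.normSq_eq_norm_sq]
    rw [h1]
    have h2 : ‖∑ n, g n * c n‖ ≤ ∑ n, ‖g n‖ := by
      refine (norm_sum_le _ _).trans (sum_le_sum fun n _ => ?_)
      rw [norm_mul]
      exact mul_le_of_le_one_right (norm_nonneg _) (hc n)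
    have h3 := sq_sum_le_card_mul_sum_sq (s := (univ : Finset (ZMod x))) (f := fun n => ‖g n‖)
    rw [card_univ, ZMod.card] at h3
    exact (pow_le_pow_left₀ (norm_nonneg _) h2 2).trans h3
  | succ m ih =>
    intro r g c hc
    rw [form_succ hQ, form_succ hQ]
    have h1 := ih (r + q) g c hc
    have h2 := ih (r + q) (av x b q r g) (av x b q r c) (norm_av_le hQ hc)
    have e1 : (fun n => (starRingEnd ℂ) (av x b q r g n)) =
        av x b q r (fun n => (starRingEnd ℂ) (g n)) := funext fun n => conj_av b q r g n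
    rw [e1] at h2
    rw [Complex.add_re, Complex.re_ofReal_mul, Complex.re_ofReal_mul]
    set A := form x b q p m (r + q) g c
    set B := form x b q p m (r + q) (av x b q r g) (av x b q r c)
    have h3 : ‖((1 - p : ℝ) : ℂ) * A + (p : ℂ) * B‖ ≤ (1 - p) * ‖A‖ + p * ‖B‖ := by
      refine (norm_add_le _ _).trans_eq ?_
      rw [norm_mul, norm_mul, Complex.norm_real, Complex.norm_real, Real.norm_eq_abs,
        Real.norm_eq_abs, abs_of_nonneg hp0, abs_of_nonneg (by linarith)]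
    have h4 : 0 ≤ (1 - p) * ‖A‖ + p * ‖B‖ := by
      have : 0 ≤ 1 - p := by linarith
      positivity
    have h5 := pow_le_pow_left₀ (norm_nonneg _) h3 2
    have h6 : ((1 - p) * ‖A‖ + p * ‖B‖) ^ 2 ≤ (1 - p) * ‖A‖ ^ 2 + p * ‖B‖ ^ 2 := by
      nlinarith [mul_nonneg (mul_nonneg hp0 (by linarith : 0 ≤ 1 - p)) (sq_nonneg (‖A‖ - ‖B‖))]
    have h7 := mul_le_mul_of_nonneg_left h1 (by linarith : 0 ≤ 1 - p)
    have h8 := mul_le_mul_of_nonneg_left h2 hp0
    nlinarith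

end form

/-- (T) CAUCHY-SCHWARZ FOR THE NOISE, the frame of helper7 -/
theorem stT : Pool.Agent.Helper7.SC.StT := by
  intro b q r m K p hb hp0 hp1 hF g c hc
  have hx : NeZero (b ^ K) := ⟨(Nat.pow_pos (by omega)).ne'⟩
  have hQ : 0 < b ^ q := Nat.pow_pos (by omega)
  have hF' : hF = ZMod.fintype (b ^ K) := Subsingleton.elim _ _
  subst hF'
  have hcol : ∀ g' c' : ZMod (b ^ K) → ℂ,
      ∑ n, ∑ t, (Pool.Agent.Helper7.SC.law b q r m K p t : ℂ) * (g' n * c' (n + t)) =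
        form (b ^ K) b q p m r g' c' := by
    intro g' c'
    unfold form Pool.Agent.Helper7.SC.law
    refine sum_congr rfl fun n _ => ?_
    push_cast
    simp only [sum_mul]
    rw [sum_comm]
    refine sum_congr rfl fun ω _ => ?_
    rw [sum_eq_single ((z b q r ω : ℤ) : ZMod (b ^ K))]
    · rw [if_pos rfl]
    · intro t _ ht
      rw [if_neg (Ne.symm ht), Complex.ofReal_zero, zero_mul]
    · intro h
      exact absurd (mem_univ _) h
  rw [hcol g c, hcol g fun n => (starRingEnd ℂ) (g n)]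
  have h := form_cs hQ hp0 hp1 m r g c hc
  rw [Nat.cast_pow] at h
  exact h

end Pool.Agent.Helper81.SC
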